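import Mathlib

set_option autoImplicit false

open Filter Topology

namespace Pool.Agent.R244.RB

variable {H : Type*} [NormedAddCommGroup H] [InnerProductSpace ℂ H]

/-- Selection of a very sparse subsequence. -/
theorem sel (y : ℕ → H) (q δ : ℝ) (hδ : 0 < δ) (hy : ∀ j, ‖y j‖ ^ 2 ≤ q)
    (hw : ∀ z : H, Tendsto (fun j => (inner ℂ (z) (y j))) atTop (𝓝 0)) :
    ∃ j : ℕ → ℕ, StrictMono j ∧ ∀ (s : Finset ℕ) (c : ℕ → ℂ),
      ‖∑ n ∈ s, c n • y (j n)‖ ^ 2 ≤ (q + δ) * ∑ n ∈ s, ‖c n‖ ^ 2 := by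
  have hstep : ∀ n m : ℕ, ∃ k, m < k ∧ ∀ i ≤ m, ‖(inner ℂ (y i) (y k))‖ ≤ δ / 4 * (1 / 4) ^ (n + 1) := by
    intro n m
    have h1 : ∀ᶠ k in atTop, ∀ i ∈ Finset.range (m + 1), ‖(inner ℂ (y i) (y k))‖ ≤ δ / 4 * (1 / 4) ^ (n + 1) := by
      rw [Finset.eventually_all]
      intro i _
      have h2 := (hw (y i)).norm
      rw [norm_zero] at h2
      exact (h2.eventually (gt_mem_nhds (by positivity))).mono fun k hk => hk.le
    obtain ⟨k, hk1, hk2⟩ := (h1.and (eventually_gt_atTop m)).exists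
    exact ⟨k, hk2, fun i hi => hk1 i (Finset.mem_range.2 (by omega))⟩
  choose st hst1 hst2 using hstep
  let j : ℕ → ℕ := fun n => Nat.rec 0 (fun n m => st n m) n
  have hj : ∀ n, j (n + 1) = st n (j n) := fun n => rfl
  have hmono : StrictMono j := strictMono_nat_of_lt_succ fun n => by rw [hj]; exact hst1 n (j n)
  have hsmall : ∀ k n, k < n → ‖(inner ℂ (y (j k)) (y (j n)))‖ ≤ δ / 4 * ((1 / 2) ^ k * (1 / 2) ^ n) := by
    intro k n hkn
    obtain ⟨n', rfl⟩ : ∃ n', n = n' + 1 := ⟨n - 1, by omega⟩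
    have h1 : j k ≤ j n' := hmono.monotone (by omega)
    have h2 := hst2 n' (j n') (j k) h1
    rw [← hj] at h2
    refine h2.trans ?_
    apply mul_le_mul_of_nonneg_left _ (by positivity)
    have h3 : ((1 : ℝ) / 4) ^ (n' + 1) = (1 / 2) ^ (n' + 1) * (1 / 2) ^ (n' + 1) := by
      rw [← mul_pow]; norm_num
    rw [h3]
    apply mul_le_mul_of_nonneg_right _ (by positivity)
    exact pow_le_pow_of_le_one (by norm_num) (by norm_num) (by omega)
  have hsmall' : ∀ k n, k ≠ n → ‖(inner ℂ (y (j k)) (y (j n)))‖ ≤ δ / 4 * ((1 / 2) ^ k * (1 / 2) ^ n) := by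
    intro k n hkn
    rcases lt_or_gt_of_ne hkn with h | h
    · exact hsmall k n h
    · rw [norm_inner_symm, mul_comm ((1 / 2 : ℝ) ^ k)]
      exact hsmall n k h
  refine ⟨j, hmono, fun s c => ?_⟩
  have hcs : (∑ n ∈ s, ‖c n‖ * (1 / 2) ^ n) ^ 2 ≤ (4 / 3) * ∑ n ∈ s, ‖c n‖ ^ 2 := by
    have h1 := Finset.sum_mul_sq_le_sq_mul_sq s (fun n => ‖c n‖) (fun n => (1 / 2 : ℝ) ^ n)
    refine h1.trans ?_
    rw [mul_comm]
    apply mul_le_mul_of_nonneg_right _ (Finset.sum_nonneg fun i _ => by positivity)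
    have h2 : Summable fun n : ℕ => ((1 / 2 : ℝ) ^ n) ^ 2 := by
      have : (fun n : ℕ => ((1 / 2 : ℝ) ^ n) ^ 2) = fun n => (1 / 4 : ℝ) ^ n := by
        ext n; rw [← pow_mul, mul_comm, pow_mul]; norm_num
      rw [this]
      exact summable_geometric_of_lt_one (by norm_num) (by norm_num)
    refine (h2.sum_le_tsum s fun i _ => by positivity).trans (le_of_eq ?_)
    have : (fun n : ℕ => ((1 / 2 : ℝ) ^ n) ^ 2) = fun n => (1 / 4 : ℝ) ^ n := by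
      ext n; rw [← pow_mul, mul_comm, pow_mul]; norm_num
    rw [this, tsum_geometric_of_lt_one (by norm_num) (by norm_num)]
    norm_num
  have hexp : ‖∑ n ∈ s, c n • y (j n)‖ ^ 2 =
      RCLike.re (∑ k ∈ s, ∑ n ∈ s, (inner ℂ (c k • y (j k)) (c n • y (j n)))) := by
    rw [← inner_self_eq_norm_sq (𝕜 := ℂ), sum_inner]
    simp_rw [inner_sum]
  have hterm : ∀ k ∈ s, ∀ n ∈ s, RCLike.re (inner ℂ (c k • y (j k)) (c n • y (j n))) ≤
      (if k = n then q * ‖c n‖ ^ 2 else 0) +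
        δ / 4 * ((‖c k‖ * (1 / 2) ^ k) * (‖c n‖ * (1 / 2) ^ n)) := by
    intro k _ n _
    by_cases hkn : k = n
    · subst hkn
      rw [if_pos rfl, inner_self_eq_norm_sq (𝕜 := ℂ), norm_smul, mul_pow]
      have h1 := mul_le_mul_of_nonneg_left (hy (j k)) (sq_nonneg ‖c k‖)
      have h2 : 0 ≤ δ / 4 * ((‖c k‖ * (1 / 2) ^ k) * (‖c k‖ * (1 / 2) ^ k)) := by positivity
      nlinarith
    · rw [if_neg hkn, zero_add]
      refine (RCLike.re_le_norm _).trans ?_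
      rw [inner_smul_left, inner_smul_right, norm_mul, norm_mul, RCLike.norm_conj]
      have h1 := hsmall' k n hkn
      calc ‖c k‖ * (‖c n‖ * ‖(inner ℂ (y (j k)) (y (j n)))‖)
          ≤ ‖c k‖ * (‖c n‖ * (δ / 4 * ((1 / 2) ^ k * (1 / 2) ^ n))) := by gcongr
        _ = _ := by ring
  rw [hexp, map_sum]
  simp_rw [map_sum]
  refine (Finset.sum_le_sum fun k hk => Finset.sum_le_sum fun n hn => hterm k hk n hn).trans ?_
  simp_rw [Finset.sum_add_distrib]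
  have e1 : ∑ k ∈ s, ∑ n ∈ s, (if k = n then q * ‖c n‖ ^ 2 else 0) = q * ∑ n ∈ s, ‖c n‖ ^ 2 := by
    rw [Finset.mul_sum]
    refine Finset.sum_congr rfl fun k hk => ?_
    rw [Finset.sum_ite_eq]
    simp [hk]
  have e2 : ∑ k ∈ s, ∑ n ∈ s, δ / 4 * ((‖c k‖ * (1 / 2) ^ k) * (‖c n‖ * (1 / 2) ^ n)) =
      δ / 4 * (∑ n ∈ s, ‖c n‖ * (1 / 2) ^ n) ^ 2 := by
    rw [sq, Finset.sum_mul_sum, Finset.mul_sum]
    refine Finset.sum_congr rfl fun k _ => ?_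
    rw [Finset.mul_sum]
  rw [e1, e2]
  have hs0 : 0 ≤ ∑ n ∈ s, ‖c n‖ ^ 2 := Finset.sum_nonneg fun i _ => by positivity
  nlinarith

variable [CompleteSpace H]

/-- The isometry with `b n ↦ v n`. -/
noncomputable def iso (b : HilbertBasis ℤ ℂ H) {v : ℤ → H} (hv : Orthonormal ℂ v) : H →ₗᵢ[ℂ] H :=
  hv.orthogonalFamily.linearIsometry.comp b.repr.toLinearIsometry

theorem iso_apply (b : HilbertBasis ℤ ℂ H) {v : ℤ → H} (hv : Orthonormal ℂ v) (n : ℤ) :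
    iso b hv (b n) = v n := by
  classical
  have h1 : b.repr (b n) = lp.single 2 n (1 : ℂ) := b.repr_self n
  change hv.orthogonalFamily.linearIsometry (b.repr (b n)) = v n
  rw [h1, OrthogonalFamily.linearIsometry_apply_single]
  simp

theorem eq_zero_of_inner (b : HilbertBasis ℤ ℂ H) {z : H} (h : ∀ n, (inner ℂ (b n) (z)) = 0) : z = 0 := by
  have h1 : b.repr z = 0 := by
    ext n
    rw [b.repr_apply_apply, h n]
    rfl
  exact b.repr.map_eq_zero_iff.1 h1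

/-- Operators on a Hilbert basis. -/
theorem opBound (b : HilbertBasis ℤ ℂ H) (T : H →L[ℂ] H) (r : ℝ) (hr : 0 ≤ r)
    (h : ∀ (s : Finset ℤ) (c : ℤ → ℂ), ‖T (∑ n ∈ s, c n • b n)‖ ^ 2 ≤ r ^ 2 * ∑ n ∈ s, ‖c n‖ ^ 2) :
    ‖T‖ ≤ r := by
  refine T.opNorm_le_bound hr fun x => ?_
  have hc : IsClosed {x : H | ‖T x‖ ≤ r * ‖x‖} :=
    isClosed_le (by fun_prop) (by fun_prop)
  have hsub : ∀ (s : Finset ℤ), (∑ n ∈ s, b.repr x n • b n) ∈ {x : H | ‖T x‖ ≤ r * ‖x‖} := by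
    intro s
    have h1 := h s (fun n => b.repr x n)
    have h2 : ‖∑ n ∈ s, b.repr x n • b n‖ ^ 2 = ∑ n ∈ s, ‖b.repr x n‖ ^ 2 := by
      rw [← inner_self_eq_norm_sq (𝕜 := ℂ), b.orthonormal.inner_sum, map_sum]
      refine Finset.sum_congr rfl fun n _ => ?_
      rw [RCLike.conj_mul]
      norm_cast
    rw [← h2, ← mul_pow] at h1
    exact (pow_le_pow_iff_left₀ (norm_nonneg _) (by positivity) (by norm_num)).1 h1
  exact hc.mem_of_tendsto (b.hasSum_repr x) (Eventually.of_forall hsub)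

/-- The choice of the sparse frequencies. -/
theorem chooseB (b : HilbertBasis ℤ ℂ H) (x : ℕ → H) (hx : Orthonormal ℂ x) (A : H →L[ℂ] H)
    (q : ℝ) (hq : q < 1) (hA : ∀ j, ‖A (x j)‖ ^ 2 ≤ q) :
    ∃ (j : ℤ → ℕ) (B : H →L[ℂ] H), Function.Injective j ∧ (∀ n, B (b n) = x (j n)) ∧
      ‖A * B‖ < 1 := by
  have hq0 : 0 ≤ q := (sq_nonneg _).trans (hA 0)
  have hw : ∀ z : H, Tendsto (fun j => (inner ℂ (z) (A (x j)))) atTop (𝓝 0) := by
    intro z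
    have h1 : ∀ j, (inner ℂ (z) (A (x j))) = (inner ℂ (A.adjoint z) (x j)) := fun j => by
      rw [ContinuousLinearMap.adjoint_inner_left]
    simp_rw [h1]
    have h2 := (hx.inner_products_summable (x := A.adjoint z)).tendsto_atTop_zero
    have h3 : Tendsto (fun j => ‖(inner ℂ (A.adjoint z) (x j))‖) atTop (𝓝 0) := by
      have h4 := h2.sqrt
      rw [Real.sqrt_zero] at h4
      refine h4.congr fun j => ?_
      rw [Real.sqrt_sq (norm_nonneg _), norm_inner_symm]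
    exact tendsto_zero_iff_norm_tendsto_zero.2 h3
  obtain ⟨j, hj, hjs⟩ := sel (fun j => A (x j)) q ((1 - q) / 2) (by linarith) hA hw
  have hinj : Function.Injective (fun n : ℤ => j (Equiv.intEquivNat n)) :=
    hj.injective.comp Equiv.intEquivNat.injective
  have hv : Orthonormal ℂ (fun n : ℤ => x (j (Equiv.intEquivNat n))) := hx.comp _ hinj
  refine ⟨fun n => j (Equiv.intEquivNat n), (iso b hv).toContinuousLinearMap, hinj, ?_, ?_⟩
  · intro n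
    exact iso_apply b hv n
  · have hr : 0 ≤ (1 + q) / 2 := by linarith
    refine (opBound b _ (√((1 + q) / 2)) (Real.sqrt_nonneg _) ?_).trans_lt ?_
    · intro s c
      rw [Real.sq_sqrt hr]
      have h1 := hjs (s.map Equiv.intEquivNat.toEmbedding) (fun n => c (Equiv.intEquivNat.symm n))
      rw [Finset.sum_map, Finset.sum_map] at h1
      simp only [Equiv.coe_toEmbedding, Equiv.symm_apply_apply] at h1
      have h2 : (A * (iso b hv).toContinuousLinearMap) (∑ n ∈ s, c n • b n) =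
          ∑ n ∈ s, c n • A (x (j (Equiv.intEquivNat n))) := by
        rw [map_sum]
        refine Finset.sum_congr rfl fun n _ => ?_
        rw [map_smul]
        congr 1
        change A (iso b hv (b n)) = _
        rw [iso_apply]
      rw [h2]
      refine h1.trans (le_of_eq ?_)
      ring
    · rw [Real.sqrt_lt' one_pos]
      linarith

/-- The block operator is bounded below and above. -/
theorem block_bounds (A B : H →L[ℂ] H) (hAB : ‖A * B‖ < 1) :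
    ∃ C1 C2 : ℝ, 0 < C1 ∧ 0 < C2 ∧ ∀ c d : H,
      C1 * (‖c‖ ^ 2 + ‖d‖ ^ 2) ≤ ‖c + A d‖ ^ 2 + ‖B c + d‖ ^ 2 ∧
      ‖c + A d‖ ^ 2 + ‖B c + d‖ ^ 2 ≤ C2 * (‖c‖ ^ 2 + ‖d‖ ^ 2) := by
  set r := ‖A * B‖ with hr
  have hr0 : 0 < 1 - r := by linarith
  set K : ℝ := (1 + ‖B‖) * ((1 + ‖A‖) / (1 - r)) + 1 with hK
  have hK0 : 0 < K := by positivity
  refine ⟨1 / (2 * K ^ 2), 2 * (1 + ‖A‖ + ‖B‖) ^ 2, by positivity, by positivity, fun c d => ?_⟩
  set f := c + A d with hf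
  set g := B c + d with hg
  have h1 : c - (A * B) c = f - A g := by
    rw [hf, hg, map_add, ContinuousLinearMap.mul_apply]
    abel
  have h2 : (1 - r) * ‖c‖ ≤ ‖f‖ + ‖A‖ * ‖g‖ := by
    have h3 : ‖c‖ ≤ ‖c - (A * B) c‖ + ‖(A * B) c‖ := by
      have := norm_add_le (c - (A * B) c) ((A * B) c)
      rwa [sub_add_cancel] at this
    have h4 := (A * B).le_opNorm c
    have h5 : ‖f - A g‖ ≤ ‖f‖ + ‖A‖ * ‖g‖ :=
      (norm_sub_le _ _).trans (add_le_add le_rfl (A.le_opNorm g))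
    rw [h1] at h3
    rw [← hr] at h4
    linarith
  have h3 : ‖c‖ ≤ (1 + ‖A‖) / (1 - r) * (‖f‖ + ‖g‖) := by
    rw [div_mul_eq_mul_div, le_div_iff₀ hr0]
    have := norm_nonneg f
    have := norm_nonneg g
    have := norm_nonneg A
    nlinarith [mul_nonneg (norm_nonneg A) (norm_nonneg f)]
  have h4 : ‖d‖ ≤ ‖g‖ + ‖B‖ * ‖c‖ := by
    have : d = g - B c := by rw [hg]; abel
    rw [this]
    exact (norm_sub_le _ _).trans (add_le_add le_rfl (B.le_opNorm c))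
  have h5 : ‖c‖ + ‖d‖ ≤ K * (‖f‖ + ‖g‖) := by
    have h6 : (1 + ‖B‖) * ‖c‖ ≤ (1 + ‖B‖) * ((1 + ‖A‖) / (1 - r) * (‖f‖ + ‖g‖)) := by gcongr
    have := norm_nonneg f
    have := norm_nonneg g
    rw [hK]
    nlinarith
  have hc0 := norm_nonneg c
  have hd0 := norm_nonneg d
  have hf0 := norm_nonneg f
  have hg0 := norm_nonneg g
  constructor
  · rw [div_mul_eq_mul_div, one_mul, div_le_iff₀ (by positivity)]
    have h6 : (‖c‖ + ‖d‖) ^ 2 ≤ (K * (‖f‖ + ‖g‖)) ^ 2 := by gcongr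
    have h7 : (‖f‖ + ‖g‖) ^ 2 ≤ 2 * (‖f‖ ^ 2 + ‖g‖ ^ 2) := by nlinarith [sq_nonneg (‖f‖ - ‖g‖)]
    have h8 : K ^ 2 * (‖f‖ + ‖g‖) ^ 2 ≤ K ^ 2 * (2 * (‖f‖ ^ 2 + ‖g‖ ^ 2)) := by gcongr
    nlinarith [mul_nonneg hc0 hd0]
  · have h6 : ‖f‖ ≤ ‖c‖ + ‖A‖ * ‖d‖ :=
      (norm_add_le _ _).trans (add_le_add le_rfl (A.le_opNorm d))
    have h7 : ‖g‖ ≤ ‖B‖ * ‖c‖ + ‖d‖ :=
      (norm_add_le _ _).trans (add_le_add (B.le_opNorm c) le_rfl)
    have h8 : ‖f‖ + ‖g‖ ≤ (1 + ‖A‖ + ‖B‖) * (‖c‖ + ‖d‖) := by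
      have := norm_nonneg A
      have := norm_nonneg B
      nlinarith [mul_nonneg (norm_nonneg A) hc0, mul_nonneg (norm_nonneg B) hd0]
    have h9 : (‖f‖ + ‖g‖) ^ 2 ≤ ((1 + ‖A‖ + ‖B‖) * (‖c‖ + ‖d‖)) ^ 2 := by gcongr
    have h10 : (‖c‖ + ‖d‖) ^ 2 ≤ 2 * (‖c‖ ^ 2 + ‖d‖ ^ 2) := by nlinarith [sq_nonneg (‖c‖ - ‖d‖)]
    have h11 : (1 + ‖A‖ + ‖B‖) ^ 2 * (‖c‖ + ‖d‖) ^ 2 ≤
        (1 + ‖A‖ + ‖B‖) ^ 2 * (2 * (‖c‖ ^ 2 + ‖d‖ ^ 2)) := by gcongr
    nlinarith [mul_nonneg hf0 hg0]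

/-- The block operator is onto. -/
theorem block_onto (A B : H →L[ℂ] H) (hAB : ‖A * B‖ < 1) (f g : H) :
    ∃ c d : H, c + A d = f ∧ B c + d = g := by
  obtain ⟨u, hu⟩ := isUnit_one_sub_of_norm_lt_one hAB
  set c : H := (↑u⁻¹ : H →L[ℂ] H) (f - A g) with hc
  have h1 : (1 - A * B) c = f - A g := by
    rw [← hu, hc, ← ContinuousLinearMap.mul_apply, Units.mul_inv]
    rfl
  have h2 : c - A (B c) = f - A g := by
    rw [← h1]
    rfl
  refine ⟨c, g - B c, ?_, by abel⟩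
  rw [map_sub]
  have : c + (A g - A (B c)) = (c - A (B c)) + A g := by abel
  rw [this, h2]
  abel

end Pool.Agent.R244.RB
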