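import Pool.Agent.R244.RB.Opa

set_option autoImplicit false

open Filter Topology MeasureTheory Set

namespace Pool.Agent.R244.RB

/-- Lebesgue measure on `(t, t+1]`. -/
noncomputable abbrev nu (t : ℝ) : Measure ℝ := volume.restrict (Ioc t (t + 1))

/-- The exponentials. -/
noncomputable def ef (β x : ℝ) : ℂ := Complex.exp (2 * Real.pi * Complex.I * (β * x))

theorem ef_cont (β : ℝ) : Continuous (ef β) := by
  unfold ef
  fun_prop

theorem ef_norm (β x : ℝ) : ‖ef β x‖ = 1 := by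
  have : (2 * Real.pi * Complex.I * (β * x) : ℂ) = ((2 * Real.pi * (β * x) : ℝ) : ℂ) * Complex.I := by
    push_cast; ring
  rw [ef, this, Complex.norm_exp_ofReal_mul_I]

theorem ef_add (α β x : ℝ) : ef (α + β) x = ef α x * ef β x := by
  rw [ef, ef, ef, ← Complex.exp_add]
  congr 1
  push_cast
  ring

theorem ef_conj (β x : ℝ) : (starRingEnd ℂ) (ef β x) = ef (-β) x := by
  rw [ef, ef, ← Complex.exp_conj]
  congr 1
  simp only [map_mul, Complex.conj_I, Complex.conj_ofReal, map_ofNat]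
  push_cast
  ring

theorem ef_zero (x : ℝ) : ef 0 x = 1 := by simp [ef]

theorem memLp_ef (t β : ℝ) : MemLp (ef β) 2 (nu t) :=
  MemLp.of_bound (ef_cont β).aestronglyMeasurable 1 (ae_of_all _ fun x => (ef_norm β x).le)

/-- The exponentials as elements of `L²`. -/
noncomputable def EE (t β : ℝ) : Lp ℂ 2 (nu t) := (memLp_ef t β).toLp _

theorem EE_coe (t β : ℝ) : EE t β =ᵐ[nu t] ef β := (memLp_ef t β).coeFn_toLp

theorem inner_EE (t α β : ℝ) : (inner ℂ (EE t α) (EE t β)) = ∫ x in t..t + 1, ef (β - α) x := by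
  rw [L2.inner_def, intervalIntegral.integral_of_le (by linarith)]
  apply integral_congr_ae
  filter_upwards [EE_coe t α, EE_coe t β] with x h1 h2
  rw [h1, h2]
  have : inner ℂ (ef α x) (ef β x) = (starRingEnd ℂ) (ef α x) * ef β x := by
    rw [RCLike.inner_apply, mul_comm]
  rw [this, ef_conj, ← ef_add]
  congr 1
  ring

theorem int_ef (t γ : ℝ) (hγ : γ ≠ 0) :
    ∫ x in t..t + 1, ef γ x =
      ef γ t * (Complex.exp (2 * Real.pi * Complex.I * γ) - 1) / (2 * Real.pi * Complex.I * γ) := by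
  have hc : (2 * Real.pi * Complex.I * γ : ℂ) ≠ 0 := by
    have h1 : (Real.pi : ℂ) ≠ 0 := by exact_mod_cast Real.pi_ne_zero
    have h2 : (γ : ℂ) ≠ 0 := by exact_mod_cast hγ
    have h3 := Complex.I_ne_zero
    exact mul_ne_zero (mul_ne_zero (mul_ne_zero two_ne_zero h1) h3) h2
  have h1 : ∀ x : ℝ, ef γ x = Complex.exp ((2 * Real.pi * Complex.I * γ) * x) := fun x => by
    rw [ef]; congr 1; ring
  simp_rw [h1]
  rw [integral_exp_mul_complex hc]
  congr 1
  rw [mul_sub, mul_one, ← Complex.exp_add]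
  congr 2
  push_cast
  ring

theorem exp_int (n : ℤ) : Complex.exp (2 * Real.pi * Complex.I * ((n : ℝ) : ℂ)) = 1 := by
  have : (2 * Real.pi * Complex.I * ((n : ℝ) : ℂ)) = n * (2 * Real.pi * Complex.I) := by
    push_cast; ring
  rw [this, Complex.exp_int_mul_two_pi_mul_I]

theorem orthE (t s : ℝ) : Orthonormal ℂ (fun n : ℤ => EE t (n + s)) := by
  rw [orthonormal_iff_ite]
  intro m n
  rw [inner_EE]
  have e : ((n : ℝ) + s - (m + s)) = ((n - m : ℤ) : ℝ) := by push_cast; ring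
  rw [e]
  split_ifs with h
  · subst h
    simp only [sub_self, Int.cast_zero, ef_zero]
    simp
  · have h1 : ((n - m : ℤ) : ℝ) ≠ 0 := by
      exact_mod_cast sub_ne_zero.2 (Ne.symm h)
    rw [int_ef t _ h1, exp_int, sub_self, mul_zero, zero_div]

theorem normsq (t : ℝ) (z : Lp ℂ 2 (nu t)) : ‖z‖ ^ 2 = ∫ x, ‖z x‖ ^ 2 ∂(nu t) := by
  have h1 : ((inner ℂ (z) (z)) : ℂ) = ((∫ x, ‖z x‖ ^ 2 ∂(nu t) : ℝ) : ℂ) := by
    rw [L2.inner_def, ← integral_complex_ofReal]
    apply integral_congr_ae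
    filter_upwards with x
    rw [inner_self_eq_norm_sq_to_K]
    norm_cast
  rw [← inner_self_eq_norm_sq (𝕜 := ℂ), h1]
  exact Complex.ofReal_re _

theorem complete (t : ℝ) (z : Lp ℂ 2 (nu t)) (h : ∀ n : ℤ, (inner ℂ (EE t (n + 0)) (z)) = 0) : z = 0 := by
  have hab : t < t + 1 := by linarith
  have h1 := hasSum_sq_fourierCoeffOn hab (Lp.memLp z)
  have h2 : ∀ n : ℤ, fourierCoeffOn hab z n = 0 := by
    intro n
    rw [fourierCoeffOn_eq_integral]
    have h3 := h n
    rw [L2.inner_def] at h3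
    rw [intervalIntegral.integral_of_le hab.le]
    have h4 : ∫ x in Ioc t (t + 1), fourier (-n) (x : AddCircle (t + 1 - t)) • z x =
        ∫ x in Ioc t (t + 1), inner ℂ ((EE t (n + 0)) x) (z x) := by
      apply integral_congr_ae
      filter_upwards [EE_coe t (n + 0)] with x hx
      rw [hx, RCLike.inner_apply, ef_conj, fourier_coe_apply, smul_eq_mul, mul_comm]
      congr 1
      rw [ef]
      congr 1
      have : ((t + 1 - t : ℝ) : ℂ) = 1 := by push_cast; ring
      rw [this]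
      push_cast
      ring
    rw [h4, h3, smul_zero]
  simp_rw [h2] at h1
  simp only [norm_zero, ne_eq, OfNat.ofNat_ne_zero, not_false_eq_true, zero_pow] at h1
  have h5 := h1.unique hasSum_zero
  have h6 : (t + 1 - t)⁻¹ = (1 : ℝ) := by norm_num
  rw [h6, one_smul, intervalIntegral.integral_of_le hab.le, ← normsq] at h5
  have h7 : ‖z‖ = 0 := by
    have := pow_eq_zero_iff (two_ne_zero) |>.1 h5
    exact this
  exact norm_eq_zero.1 h7

/-- The basis of the exponentials with integer frequencies. -/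
noncomputable def bas (t : ℝ) : HilbertBasis ℤ ℂ (Lp ℂ 2 (nu t)) :=
  HilbertBasis.mkOfOrthogonalEqBot (orthE t 0) (by
    rw [Submodule.eq_bot_iff]
    intro z hz
    apply complete t z
    intro n
    exact hz _ (Submodule.subset_span ⟨n, rfl⟩))

theorem bas_apply (t : ℝ) (n : ℤ) : bas t n = EE t n := by
  have h := HilbertBasis.coe_mkOfOrthogonalEqBot (orthE t 0) (by
    rw [Submodule.eq_bot_iff]
    intro z hz
    apply complete t z
    intro n
    exact hz _ (Submodule.subset_span ⟨n, rfl⟩))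
  have h2 : bas t n = EE t (n + 0) := congrFun h n
  rw [h2, add_zero]

theorem int_half (t γ : ℝ) (hγ : γ ≠ 0)
    (h : Complex.exp (2 * Real.pi * Complex.I * γ) = -1) :
    ∫ x in t..t + 1, ef γ x = -(ef γ t) / (Real.pi * Complex.I * γ) := by
  rw [int_ef t γ hγ, h]
  have h1 : (Real.pi : ℂ) ≠ 0 := by exact_mod_cast Real.pi_ne_zero
  have h2 : (γ : ℂ) ≠ 0 := by exact_mod_cast hγ
  have := Complex.I_ne_zero
  field_simp
  ring

theorem exp_half (n : ℤ) (γ : ℝ) (h : γ = n + 1 / 2) :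
    Complex.exp (2 * Real.pi * Complex.I * γ) = -1 := by
  have : (2 * Real.pi * Complex.I * γ) = n * (2 * Real.pi * Complex.I) + Real.pi * Complex.I := by
    rw [h]; push_cast; ring
  rw [this, Complex.exp_add, Complex.exp_int_mul_two_pi_mul_I, Complex.exp_pi_mul_I, one_mul]

theorem re_ef (d t : ℝ) : (ef (-d) t).re = Real.cos (2 * Real.pi * d * t) := by
  have : (2 * Real.pi * Complex.I * ((-d : ℝ) * t) : ℂ) =
      ((-(2 * Real.pi * d * t) : ℝ) : ℂ) * Complex.I := by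
    push_cast; ring
  rw [ef, this, Complex.exp_ofReal_mul_I_re, Real.cos_neg]

/-- The terms of the cross product. -/
theorem term_eq (t : ℝ) (d n j : ℤ) :
    RCLike.re ((inner ℂ (EE t (2 * d * j - 1 / 2)) (bas t (2 * d * n))) *
      (inner ℂ (bas t (2 * d * n + d)) (EE t (2 * d * j - 1 / 2)))) =
    Real.cos (2 * Real.pi * d * t) /
      (Real.pi ^ 2 * ((2 * d * (n - j) + 1 / 2) * (2 * d * (n - j) + d + 1 / 2))) := by
  rw [bas_apply, bas_apply, inner_EE, inner_EE]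
  have e1 : (((2 * d * n : ℤ) : ℝ) - (2 * d * j - 1 / 2)) = 2 * d * (n - j) + 1 / 2 := by
    push_cast; ring
  have e2 : ((2 * d * j - 1 / 2 : ℝ) - ((2 * d * n + d : ℤ) : ℝ)) =
      -(2 * d * (n - j) + d + 1 / 2) := by
    push_cast; ring
  rw [e1, e2]
  set γ : ℝ := 2 * d * (n - j) + 1 / 2 with hγ
  set γ' : ℝ := 2 * d * (n - j) + d + 1 / 2 with hγ'
  have h1 : Complex.exp (2 * Real.pi * Complex.I * γ) = -1 :=
    exp_half (2 * d * (n - j)) γ (by rw [hγ]; push_cast; ring)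
  have h2 : Complex.exp (2 * Real.pi * Complex.I * ((-γ' : ℝ) : ℂ)) = -1 :=
    exp_half (-(2 * d * (n - j) + d) - 1) (-γ') (by rw [hγ']; push_cast; ring)
  have n1 : γ ≠ 0 := by
    intro h0
    have : (2 : ℝ) * (2 * d * (n - j)) + 1 = 0 := by linarith
    have h3 : (2 * (2 * d * (n - j)) + 1 : ℤ) = 0 := by exact_mod_cast this
    omega
  have n2 : γ' ≠ 0 := by
    intro h0
    have : (2 : ℝ) * (2 * d * (n - j) + d) + 1 = 0 := by linarith
    have h3 : (2 * (2 * d * (n - j) + d) + 1 : ℤ) = 0 := by exact_mod_cast this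
    omega
  rw [int_half t γ n1 h1, int_half t (-γ') (neg_ne_zero.2 n2) h2]
  have hpi : (Real.pi : ℂ) ≠ 0 := by exact_mod_cast Real.pi_ne_zero
  have c1 : (γ : ℂ) ≠ 0 := by exact_mod_cast n1
  have c2 : (γ' : ℂ) ≠ 0 := by exact_mod_cast n2
  have hI := Complex.I_ne_zero
  have e3 : -(ef γ t) / (Real.pi * Complex.I * γ) *
      (-(ef (-γ') t) / (Real.pi * Complex.I * ((-γ' : ℝ) : ℂ))) =
      ef (-(d : ℝ)) t * (((Real.pi ^ 2 * (γ * γ'))⁻¹ : ℝ) : ℂ) := by
    have e4 : ef γ t * ef (-γ') t = ef (-(d : ℝ)) t := by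
      rw [← ef_add]
      congr 1
      rw [hγ, hγ']
      ring
    rw [← e4]
    push_cast
    field_simp
    rw [Complex.I_sq]
    ring
  rw [e3]
  have e5 : RCLike.re (ef (-(d : ℝ)) t * (((Real.pi ^ 2 * (γ * γ'))⁻¹ : ℝ) : ℂ)) =
      (ef (-(d : ℝ)) t).re * (Real.pi ^ 2 * (γ * γ'))⁻¹ := by
    change (ef (-(d : ℝ)) t * (((Real.pi ^ 2 * (γ * γ'))⁻¹ : ℝ) : ℂ)).re = _
    rw [Complex.re_mul_ofReal]
  rw [e5, re_ef, div_eq_mul_inv]

theorem den_pos (d l : ℤ) (hd : 0 < d) :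
    (0 : ℝ) < (2 * d * l + 1 / 2) * (2 * d * l + d + 1 / 2) := by
  rcases lt_or_ge l 0 with h | h
  · have h1 : (2 * d * l + 2 * d : ℤ) ≤ 0 := by nlinarith
    have h2 : (2 * d * l + 2 * d : ℝ) ≤ 0 := by exact_mod_cast h1
    have h3 : (1 : ℝ) ≤ d := by exact_mod_cast hd
    apply mul_pos_of_neg_of_neg <;> linarith
  · have h1 : (0 : ℤ) ≤ 2 * d * l := by positivity
    have h2 : (0 : ℝ) ≤ 2 * d * l := by exact_mod_cast h1
    have h3 : (1 : ℝ) ≤ d := by exact_mod_cast hd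
    positivity

/-- The estimate for `A`. -/
theorem opA_EE (t : ℝ) (d : ℤ) (hd : 0 < d) (hcos : Real.cos (2 * Real.pi * d * t) < 0) (j : ℤ) :
    ‖opA (bas t) hd (EE t (2 * d * j - 1 / 2))‖ ^ 2 ≤
      1 + 2 * (Real.cos (2 * Real.pi * d * t) / (Real.pi ^ 2 * (1 / 2 * (d + 1 / 2)))) := by
  have h1 := opA_le (bas t) hd (EE t (2 * d * j - 1 / 2))
    (-(Real.cos (2 * Real.pi * d * t) / (Real.pi ^ 2 * (1 / 2 * (d + 1 / 2))))) j ?_ ?_
  · have h2 : ‖EE t (2 * d * j - 1 / 2)‖ = 1 := by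
      have h3 := (orthE t (-1 / 2)).1 (2 * d * j)
      change ‖EE t (((2 * d * j : ℤ) : ℝ) + -1 / 2)‖ = 1 at h3
      have e : (((2 * d * j : ℤ) : ℝ) + -1 / 2) = 2 * d * j - 1 / 2 := by push_cast; ring
      rwa [e] at h3
    rw [h2] at h1
    linarith
  · intro n
    rw [term_eq t d n j]
    have h2 := den_pos d (n - j) hd
    push_cast at h2
    apply div_nonpos_of_nonpos_of_nonneg hcos.le
    have := Real.pi_pos
    positivity
  · rw [term_eq t d j j]
    simp

/-- A multiple of `t` with negative cosine. -/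
theorem exists_cos (t : ℝ) (ht : ∀ n : ℤ, t ≠ n) :
    ∃ d : ℤ, 0 < d ∧ Real.cos (2 * Real.pi * d * t) < 0 := by
  by_contra hcon
  push Not at hcon
  have hc : ∀ k : ℕ, 0 ≤ Real.cos (2 * Real.pi * ((2 ^ k : ℕ) : ℝ) * t) := by
    intro k
    have := hcon ((2 ^ k : ℕ) : ℤ) (by positivity)
    push_cast at this ⊢
    exact this
  have h1 : ∀ k : ℕ, (2 : ℝ) ^ k * (1 - Real.cos (2 * Real.pi * t)) ≤
      1 - Real.cos (2 * Real.pi * ((2 ^ k : ℕ) : ℝ) * t) := by
    intro k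
    induction k with
    | zero => simp
    | succ k ih =>
      have e : 2 * Real.pi * ((2 ^ (k + 1) : ℕ) : ℝ) * t =
          2 * (2 * Real.pi * ((2 ^ k : ℕ) : ℝ) * t) := by
        push_cast; ring
      rw [e, Real.cos_two_mul]
      have h2 := hc k
      have h3 := Real.cos_le_one (2 * Real.pi * ((2 ^ k : ℕ) : ℝ) * t)
      rw [pow_succ]
      nlinarith
  have h2 : 0 < 1 - Real.cos (2 * Real.pi * t) := by
    have h3 := Real.cos_le_one (2 * Real.pi * t)
    rcases h3.lt_or_eq with h | h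
    · linarith
    · exfalso
      rw [Real.cos_eq_one_iff] at h
      obtain ⟨n, hn⟩ := h
      apply ht n
      have := Real.pi_pos
      have h4 : (2 * Real.pi) * (n - t) = 0 := by linarith
      rcases mul_eq_zero.1 h4 with h5 | h5
      · linarith
      · linarith
  obtain ⟨k, hk⟩ := pow_unbounded_of_one_lt (1 / (1 - Real.cos (2 * Real.pi * t)))
    (by norm_num : (1 : ℝ) < 2)
  have h3 := h1 k
  have h4 := hc k
  rw [div_lt_iff₀ h2] at hk
  linarith

/-- The operators for the exponential Riesz basis. -/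
theorem operators (t : ℝ) (ht : ∀ n : ℤ, t ≠ n) :
    ∃ (a : ℤ → ℤ) (β : ℤ → ℤ) (A B : Lp ℂ 2 (nu t) →L[ℂ] Lp ℂ 2 (nu t)),
      (∀ m, A (EE t (m : ℤ)) = EE t (a m)) ∧ (∀ n : ℤ, B (EE t n) = EE t (β n - 1 / 2)) ∧
      ‖A * B‖ < 1 := by
  obtain ⟨d, hd, hcos⟩ := exists_cos t ht
  have hx : Orthonormal ℂ (fun j : ℕ => EE t (2 * d * (j : ℤ) - 1 / 2)) := by
    have h1 := (orthE t (-1 / 2)).comp (fun j : ℕ => 2 * d * (j : ℤ)) (fun i j h => by
      have h' : 2 * d * (i : ℤ) = 2 * d * (j : ℤ) := h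
      have := mul_left_cancel₀ (by positivity) h'
      exact_mod_cast this)
    have e : ((fun n : ℤ => EE t (n + -1 / 2)) ∘ (fun j : ℕ => 2 * d * (j : ℤ))) =
        (fun j : ℕ => EE t (2 * d * (j : ℤ) - 1 / 2)) := by
      ext1 j
      simp only [Function.comp]
      congr 1
      push_cast
      ring
    rwa [e] at h1
  have hd0 : (0 : ℝ) < d := by exact_mod_cast hd
  have hpi := Real.pi_pos
  obtain ⟨j, B, hj, hB, hAB⟩ := chooseB (bas t) _ hx (opA (bas t) hd)
    (1 + 2 * (Real.cos (2 * Real.pi * d * t) / (Real.pi ^ 2 * (1 / 2 * (d + 1 / 2)))))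
    (by
      have : Real.cos (2 * Real.pi * d * t) / (Real.pi ^ 2 * (1 / 2 * (d + 1 / 2))) < 0 :=
        div_neg_of_neg_of_pos hcos (by positivity)
      linarith)
    (fun j => opA_EE t d hd hcos j)
  refine ⟨am d, fun n => 2 * d * (j n : ℤ), opA (bas t) hd, B, ?_, ?_, hAB⟩
  · intro m
    rw [← bas_apply, opA_basis, bas_apply]
  · intro n
    rw [← bas_apply, hB]
    congr 1
    push_cast
    ring

end Pool.Agent.R244.RB
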