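import Pool.Agent.R244.RB.Abs

set_option autoImplicit false

open Filter Topology

namespace Pool.Agent.R244.RB

variable {H : Type*} [NormedAddCommGroup H] [InnerProductSpace ℂ H] [CompleteSpace H]

/-- The map of the frequencies. -/
def am (d : ℤ) (m : ℤ) : ℤ := if 2 * d ∣ m - d then m - d else m

theorem orth0 (b : HilbertBasis ℤ ℂ H) {d : ℤ} (hd : 0 < d) :
    Orthonormal ℂ (fun n : ℤ => b (2 * d * n)) :=
  b.orthonormal.comp _ (fun n m h => by
    have h' : 2 * d * n = 2 * d * m := h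
    exact mul_left_cancel₀ (by positivity) h')

theorem orth1 (b : HilbertBasis ℤ ℂ H) {d : ℤ} (hd : 0 < d) :
    Orthonormal ℂ (fun n : ℤ => b (2 * d * n + d)) :=
  b.orthonormal.comp _ (fun n m h => by
    have h' : 2 * d * n + d = 2 * d * m + d := h
    exact mul_left_cancel₀ (by positivity : (2 * d) ≠ 0) (add_right_cancel h'))

/-- The isometries `b n ↦ b (2dn)`, `b n ↦ b (2dn+d)`. -/
noncomputable def J0 (b : HilbertBasis ℤ ℂ H) {d : ℤ} (hd : 0 < d) : H →L[ℂ] H :=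
  (iso b (orth0 b hd)).toContinuousLinearMap

noncomputable def J1 (b : HilbertBasis ℤ ℂ H) {d : ℤ} (hd : 0 < d) : H →L[ℂ] H :=
  (iso b (orth1 b hd)).toContinuousLinearMap

theorem J0_apply (b : HilbertBasis ℤ ℂ H) {d : ℤ} (hd : 0 < d) (n : ℤ) :
    J0 b hd (b n) = b (2 * d * n) := iso_apply b (orth0 b hd) n

theorem J1_apply (b : HilbertBasis ℤ ℂ H) {d : ℤ} (hd : 0 < d) (n : ℤ) :
    J1 b hd (b n) = b (2 * d * n + d) := iso_apply b (orth1 b hd) n

theorem J0_norm (b : HilbertBasis ℤ ℂ H) {d : ℤ} (hd : 0 < d) (x : H) :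
    ‖J0 b hd x‖ = ‖x‖ := (iso b (orth0 b hd)).norm_map x

theorem J1_norm (b : HilbertBasis ℤ ℂ H) {d : ℤ} (hd : 0 < d) (x : H) :
    ‖J1 b hd x‖ = ‖x‖ := (iso b (orth1 b hd)).norm_map x

/-- The operator `A` with `A (b m) = b (am d m)`. -/
noncomputable def opA (b : HilbertBasis ℤ ℂ H) {d : ℤ} (hd : 0 < d) : H →L[ℂ] H :=
  1 + (J0 b hd - J1 b hd) ∘L (J1 b hd).adjoint

theorem opA_eq (b : HilbertBasis ℤ ℂ H) {d : ℤ} (hd : 0 < d) (x : H) :
    opA b hd x = x + (J0 b hd ((J1 b hd).adjoint x) - J1 b hd ((J1 b hd).adjoint x)) := rfl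

theorem inner_bb (b : HilbertBasis ℤ ℂ H) (m n : ℤ) : (inner ℂ (b m) (b n)) = if m = n then (1 : ℂ) else 0 :=
  (orthonormal_iff_ite.1 b.orthonormal) m n

theorem J1_adj (b : HilbertBasis ℤ ℂ H) {d : ℤ} (hd : 0 < d) (m : ℤ) (n : ℤ)
    (h : m = 2 * d * n + d) : (J1 b hd).adjoint (b m) = b n := by
  rw [← sub_eq_zero]
  apply eq_zero_of_inner b
  intro k
  rw [inner_sub_right, ContinuousLinearMap.adjoint_inner_right, J1_apply, h, inner_bb, inner_bb]
  by_cases hk : k = n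
  · rw [hk, if_pos rfl, if_pos rfl, sub_self]
  · rw [if_neg hk, if_neg, sub_self]
    intro h2
    exact hk (mul_left_cancel₀ (by positivity : (2 * d) ≠ 0) (add_right_cancel h2))

theorem J1_adj_zero (b : HilbertBasis ℤ ℂ H) {d : ℤ} (hd : 0 < d) (m : ℤ)
    (h : ¬ 2 * d ∣ m - d) : (J1 b hd).adjoint (b m) = 0 := by
  apply eq_zero_of_inner b
  intro k
  rw [ContinuousLinearMap.adjoint_inner_right, J1_apply, inner_bb, if_neg]
  intro h2
  apply h
  exact ⟨k, by rw [← h2]; ring⟩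

theorem opA_basis (b : HilbertBasis ℤ ℂ H) {d : ℤ} (hd : 0 < d) (m : ℤ) :
    opA b hd (b m) = b (am d m) := by
  rw [opA_eq]
  unfold am
  split_ifs with h
  · obtain ⟨n, hn⟩ := h
    have h1 : m = 2 * d * n + d := by linarith
    rw [J1_adj b hd m n h1, J0_apply, J1_apply, ← h1, ← hn]
    abel
  · rw [J1_adj_zero b hd m h, map_zero, map_zero, sub_zero, add_zero]

theorem J1_J0 (b : HilbertBasis ℤ ℂ H) {d : ℤ} (hd : 0 < d) (y z : H) :
    (inner ℂ (J1 b hd y) (J0 b hd z)) = 0 := by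
  have h1 : ∀ n : ℤ, (J0 b hd).adjoint (b (2 * d * n + d)) = 0 := by
    intro n
    apply eq_zero_of_inner b
    intro k
    rw [ContinuousLinearMap.adjoint_inner_right, J0_apply, inner_bb, if_neg]
    intro h2
    have h3 : d = 2 * d * (k - n) := by linear_combination (-1 : ℤ) * h2
    have h4 : d * (2 * (k - n) - 1) = 0 := by linear_combination (-1 : ℤ) * h3
    rcases mul_eq_zero.1 h4 with h5 | h5
    · omega
    · omega
  have h2 : (J1 b hd).adjoint (J0 b hd z) = 0 := by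
    apply eq_zero_of_inner b
    intro n
    rw [ContinuousLinearMap.adjoint_inner_right, J1_apply,
      ← ContinuousLinearMap.adjoint_inner_left, h1, inner_zero_left]
  rw [← ContinuousLinearMap.adjoint_inner_right, h2, inner_zero_right]

/-- The norm of `A x`. -/
theorem opA_norm (b : HilbertBasis ℤ ℂ H) {d : ℤ} (hd : 0 < d) (x : H) :
    ‖opA b hd x‖ ^ 2 = ‖x‖ ^ 2 +
      2 * RCLike.re (inner ℂ (x) (J0 b hd ((J1 b hd).adjoint x))) := by
  set u := (J1 b hd).adjoint x with hu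
  have e1 : opA b hd x = (x - J1 b hd u) + J0 b hd u := by rw [opA_eq, ← hu]; abel
  have e2 : ‖x - J1 b hd u‖ ^ 2 = ‖x‖ ^ 2 - ‖u‖ ^ 2 := by
    rw [norm_sub_sq (𝕜 := ℂ), J1_norm, ← ContinuousLinearMap.adjoint_inner_left, ← hu,
      inner_self_eq_norm_sq (𝕜 := ℂ)]
    ring
  rw [e1, norm_add_sq (𝕜 := ℂ), e2, J0_norm, inner_sub_left, J1_J0, sub_zero]
  ring

theorem opA_sum (b : HilbertBasis ℤ ℂ H) {d : ℤ} (hd : 0 < d) (x : H) :
    HasSum (fun n : ℤ => RCLike.re ((inner ℂ (x) (b (2 * d * n))) * (inner ℂ (b (2 * d * n + d)) (x))))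
      (RCLike.re (inner ℂ (x) (J0 b hd ((J1 b hd).adjoint x)))) := by
  have h1 := b.hasSum_inner_mul_inner ((J0 b hd).adjoint x) ((J1 b hd).adjoint x)
  have h2 : HasSum (fun n : ℤ => (inner ℂ (x) (b (2 * d * n))) * (inner ℂ (b (2 * d * n + d)) (x)))
      (inner ℂ (x) (J0 b hd ((J1 b hd).adjoint x))) := by
    convert! h1 using 1
    · ext n
      rw [ContinuousLinearMap.adjoint_inner_left, ContinuousLinearMap.adjoint_inner_right,
        J0_apply, J1_apply]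
    · rw [ContinuousLinearMap.adjoint_inner_left]
  exact (RCLike.reCLM (K := ℂ)).hasSum h2

theorem opA_le (b : HilbertBasis ℤ ℂ H) {d : ℤ} (hd : 0 < d) (x : H) (κ : ℝ) (n0 : ℤ)
    (h : ∀ n : ℤ, RCLike.re ((inner ℂ (x) (b (2 * d * n))) * (inner ℂ (b (2 * d * n + d)) (x))) ≤ 0)
    (h0 : RCLike.re ((inner ℂ (x) (b (2 * d * n0))) * (inner ℂ (b (2 * d * n0 + d)) (x))) ≤ -κ) :
    ‖opA b hd x‖ ^ 2 ≤ ‖x‖ ^ 2 - 2 * κ := by
  have h1 := (opA_sum b hd x).neg
  have h2 := le_hasSum h1 n0 (fun n _ => by simpa using h n)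
  rw [opA_norm]
  linarith

end Pool.Agent.R244.RB
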